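import Pool.Agent.Run7.h755.EN.Fix
import Pool.Agent.Run7.h755.MG.Main

/-! # Ramified endomorphisms of `F_p((t))` (helper755, for MP_db9079_lc) -/

set_option autoImplicit false

namespace Pool.Agent.Run7.h755.EN

open Function
open Pool.Agent.Run7.h755.MG
open Pool.Agent.Results.MP_db9079_lc.UniformFiniteness

variable {p : ℕ} [hp : Fact p.Prime]

/-- the element `t` -/
noncomputable def T (p : ℕ) [Fact p.Prime] : LaurentSeries (ZMod p) := HahnSeries.single 1 1

theorem T_ne : T p ≠ 0 := fun h => one_ne_zero (HahnSeries.single_eq_zero_iff.1 h)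

theorem T_order : (T p).order = 1 := HahnSeries.order_single one_ne_zero

theorem V_T : V 1 (T p) := by
  have := V_order (T p)
  rwa [T_order] at this

theorem order_eq {x : LaurentSeries (ZMod p)} {k : ℤ} (h : V k x) (h' : x.coeff k ≠ 0) :
    x.order = k := by
  have hx : x ≠ 0 := by
    rintro rfl
    exact h' rfl
  apply le_antisymm
  · exact HahnSeries.order_le_of_coeff_ne_zero h'
  · by_contra hc
    exact coeff_order_ne hx (h _ (not_le.1 hc))

theorem coeff_zero_one {w : LaurentSeries (ZMod p)} (h : V 1 (w - 1)) : w.coeff 0 = 1 := by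
  have := h 0 (by norm_num)
  rw [HahnSeries.coeff_sub, HahnSeries.coeff_one, if_pos rfl, sub_eq_zero] at this
  exact this

theorem V0_map (σ : LaurentSeries (ZMod p) →+* LaurentSeries (ZMod p)) (m : ℕ) (hm : 1 ≤ m)
    (ho : (σ (T p)).order = m) {x : LaurentSeries (ZMod p)} (hx : V 0 x) : V 0 (σ x) := by
  obtain ⟨l, hl⟩ : ∃ l : ℕ, l = m * p + 1 := ⟨_, rfl⟩
  have hpl : ¬ p ∣ l := by
    intro h
    rw [hl] at h
    have h1 : p ∣ 1 := (Nat.dvd_add_right (Dvd.intro_left m rfl)).1 h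
    exact hp.out.one_lt.ne' (Nat.dvd_one.1 h1)
  have hml : m < l := by
    rw [hl]
    have := Nat.le_mul_of_pos_right m hp.out.pos
    omega
  have hV : V 1 (T p * x ^ l) := by
    have := V_mul (V_T (p := p)) (V_pow hx l)
    rwa [add_zero] at this
  obtain ⟨y, -, hy⟩ := solve l hpl (fun _ => 1 + T p * x ^ l) (fun w _ => by
    rwa [add_sub_cancel_left]) (fun w w' _ _ k _ _ => by
    rw [sub_self]
    exact V_zero _)
  change y ^ l = 1 + T p * x ^ l at hy
  have h1 := congrArg σ hy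
  rw [map_pow, map_add, map_one, map_mul, map_pow] at h1
  by_contra hc
  have hsx : σ x ≠ 0 := by
    intro h
    rw [h] at hc
    exact hc (V_zero 0)
  have he : (σ x).order < 0 := by
    by_contra h
    exact hc ((V_order (σ x)).mono (not_lt.1 h))
  have hsT : σ (T p) ≠ 0 := by
    rw [Ne, map_eq_zero]
    exact T_ne
  obtain ⟨A, hA⟩ : ∃ A, A = σ (T p) * σ x ^ l := ⟨_, rfl⟩
  rw [← hA] at h1
  have hA0 : A ≠ 0 := by
    rw [hA]
    exact mul_ne_zero hsT (pow_ne_zero l hsx)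
  have hAo : A.order = m + l * (σ x).order := by
    rw [hA, HahnSeries.order_mul hsT (pow_ne_zero l hsx), ho, HahnSeries.order_pow, nsmul_eq_mul]
  have hAn : A.order < 0 := by
    rw [hAo]
    have h2 : (l : ℤ) * (σ x).order ≤ (l : ℤ) * (-1) :=
      mul_le_mul_of_nonneg_left (by omega) (by omega)
    omega
  have h1A : (1 + A).order = A.order := by
    refine order_eq (V_add (V_one.mono hAn.le) (V_order A)) ?_
    rw [HahnSeries.coeff_add, HahnSeries.coeff_one, if_neg hAn.ne, zero_add]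
    exact coeff_order_ne hA0
  rw [← h1, HahnSeries.order_pow, nsmul_eq_mul, hAo] at h1A
  have h3 : (l : ℤ) ∣ m := ⟨(σ y).order - (σ x).order, by linear_combination -h1A⟩
  have h4 := Int.le_of_dvd (by omega) h3
  omega

theorem V_map (σ : LaurentSeries (ZMod p) →+* LaurentSeries (ZMod p)) (m : ℕ) (hm : 1 ≤ m)
    (ho : (σ (T p)).order = m) {x : LaurentSeries (ZMod p)} {k : ℤ} (hx : V k x) :
    V (k * m) (σ x) := by
  have hsT : σ (T p) ≠ 0 := by
    rw [Ne, map_eq_zero]
    exact T_ne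
  have h1 : V 0 (T p ^ (-k) * x) := by
    have h2 := V_order (T p ^ (-k))
    rw [order_zpow' T_ne, T_order, mul_one] at h2
    have h3 := V_mul h2 hx
    rwa [neg_add_cancel] at h3
  have h4 : x = T p ^ k * (T p ^ (-k) * x) := by
    rw [← mul_assoc, ← zpow_add₀ T_ne, add_neg_cancel, zpow_zero, one_mul]
  rw [h4, map_mul, map_zpow₀]
  have h5 := V_order (σ (T p) ^ k)
  rw [order_zpow' hsT, ho] at h5
  have h6 := V_mul h5 (V0_map σ m hm ho h1)
  rwa [add_zero] at h6

/-- the coordinate of Böttcher -/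
theorem exists_s (σ : LaurentSeries (ZMod p) →+* LaurentSeries (ZMod p)) (m : ℕ) (hm : 2 ≤ m)
    (hpm : ¬ p ∣ m) (ho : (σ (T p)).order = m) :
    ∃ s : LaurentSeries (ZMod p), s.order = 1 ∧ s ≠ 0 ∧ σ s ^ (p - 1) = s ^ (m * (p - 1)) := by
  have hsT : σ (T p) ≠ 0 := by
    rw [Ne, map_eq_zero]
    exact T_ne
  have hTm : T p ^ m ≠ 0 := pow_ne_zero m T_ne
  obtain ⟨g0, hg0⟩ : ∃ g0, g0 = σ (T p) / T p ^ m := ⟨_, rfl⟩
  have hg0' : σ (T p) = T p ^ m * g0 := by
    rw [hg0]
    field_simp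
  have hg0n : g0 ≠ 0 := by
    rintro rfl
    rw [mul_zero] at hg0'
    exact hsT hg0'
  have hgo : g0.order = 0 := by
    have h1 := HahnSeries.order_mul hTm hg0n
    rw [← hg0', ho, HahnSeries.order_pow, T_order, nsmul_eq_mul, mul_one] at h1
    omega
  obtain ⟨c, hc⟩ : ∃ c, c = g0.coeff 0 := ⟨_, rfl⟩
  have hc0 : c ≠ 0 := by
    have := coeff_order_ne hg0n
    rwa [hgo, ← hc] at this
  have hVC : ∀ a : ZMod p, V 0 (HahnSeries.C a : LaurentSeries (ZMod p)) := by
    intro a i hi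
    rw [HahnSeries.C_apply, HahnSeries.coeff_single_of_ne hi.ne]
  obtain ⟨g, hg⟩ : ∃ g : LaurentSeries (ZMod p), g = HahnSeries.C c⁻¹ * g0 := ⟨_, rfl⟩
  have hCc : (HahnSeries.C c : LaurentSeries (ZMod p)) * HahnSeries.C c⁻¹ = 1 := by
    rw [← map_mul, mul_inv_cancel₀ hc0, map_one]
  have hg1 : g0 = HahnSeries.C c * g := by
    rw [hg, ← mul_assoc, hCc, one_mul]
  have hV0 : V 0 g0 := by
    have := V_order g0
    rwa [hgo] at this
  have hgV : V 1 (g - 1) := by
    have e : g - 1 = HahnSeries.C c⁻¹ * (g0 - HahnSeries.C c) := by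
      rw [hg, mul_sub, mul_comm (HahnSeries.C c⁻¹) (HahnSeries.C c), hCc]
    rw [e]
    have h1 : V 1 (g0 - HahnSeries.C c) := by
      intro i hi
      rw [HahnSeries.coeff_sub, HahnSeries.C_apply]
      rcases (show i < 0 ∨ i = 0 by omega) with h | rfl
      · rw [hV0 i h, HahnSeries.coeff_single_of_ne h.ne, sub_zero]
      · rw [HahnSeries.coeff_single_same, hc, sub_self]
    have h2 := V_mul (hVC c⁻¹) h1
    rwa [zero_add] at h2
  have hsig : ∀ w : LaurentSeries (ZMod p), V 1 (w - 1) → V 1 (σ w - 1) := by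
    intro w hw
    have h1 := V_map σ m (by omega) ho hw
    rw [map_sub, map_one] at h1
    exact h1.mono (by omega)
  obtain ⟨w, hw, hwm⟩ := solve m hpm (fun w => g * σ w) (fun w hw => by
    have e : g * σ w - 1 = (g - 1) * σ w + (σ w - 1) := by ring
    rw [e]
    refine V_add ?_ (hsig w hw)
    have h1 := V_mul hgV (V_of_one (hsig w hw))
    rwa [add_zero] at h1) (fun w w' _ _ k hk hkk => by
    rw [← mul_sub, ← map_sub]
    have h1 := V_mul (V_of_one hgV) (V_map σ m (by omega) ho hkk)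
    rw [zero_add] at h1
    refine h1.mono ?_
    have h2 : (2 : ℤ) ≤ m := by exact_mod_cast hm
    nlinarith)
  change w ^ m = g * σ w at hwm
  have hw0 : w ≠ 0 := by
    rintro rfl
    have := coeff_zero_one hw
    exact zero_ne_one this
  have hwo : w.order = 0 := order_eq (V_of_one hw) (by rw [coeff_zero_one hw]; exact one_ne_zero)
  refine ⟨T p * w, ?_, mul_ne_zero T_ne hw0, ?_⟩
  · rw [HahnSeries.order_mul T_ne hw0, T_order, hwo, add_zero]
  · have h1 : σ (T p * w) = HahnSeries.C c * (T p * w) ^ m := by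
      rw [map_mul, hg0', hg1, mul_pow, hwm]
      ring
    rw [h1, mul_pow, ← map_pow, ZMod.pow_card_sub_one_eq_one hc0, map_one, one_mul, ← pow_mul]

/-- the set of the `x` with `σ x ∈ F_p x ^ m` -/
def ES (σ : LaurentSeries (ZMod p) →+* LaurentSeries (ZMod p)) (m : ℕ) :
    Set (LaurentSeries (ZMod p)) :=
  {x | x ≠ 0 ∧ σ x ^ (p - 1) = x ^ (m * (p - 1))}

theorem ES_infinite (σ : LaurentSeries (ZMod p) →+* LaurentSeries (ZMod p)) (m : ℕ) (hm : 2 ≤ m)
    (hpm : ¬ p ∣ m) (ho : (σ (T p)).order = m) : (ES σ m).Infinite := by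
  obtain ⟨s, hs1, hs0, hs⟩ := exists_s σ m hm hpm ho
  refine Set.infinite_of_injective_forall_mem (f := fun k : ℕ => s ^ k) (fun a b hab => ?_)
    fun k => ⟨pow_ne_zero k hs0, ?_⟩
  · have h1 := congrArg HahnSeries.order (show s ^ a = s ^ b from hab)
    rw [HahnSeries.order_pow, HahnSeries.order_pow, hs1] at h1
    simpa using h1
  · rw [map_pow, ← pow_mul, mul_comm k, pow_mul, hs, ← pow_mul, ← pow_mul]
    congr 1
    ring

theorem ES_discr (σ : LaurentSeries (ZMod p) →+* LaurentSeries (ZMod p)) (m : ℕ) (hm : 2 ≤ m)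
    (hpm : ¬ p ∣ m) (ho : (σ (T p)).order = m) : Discr p (ES σ m) := by
  rintro x ⟨hx0, hx⟩
  refine ⟨HahnSeries.single (x.order + 1) (1 : ZMod p),
    fun h => one_ne_zero (HahnSeries.single_eq_zero_iff.1 h), ?_⟩
  rintro y ⟨hy0, hy⟩ ⟨z, hz, hxy⟩
  have hV : V (x.order + 1) (y - x) := by
    intro i hi
    have hag := (Pool.Agent.Y697.UF.ball_single (x.order + 1) x y).1 ⟨z, hz, by rw [← hxy]; ring⟩
    rw [HahnSeries.coeff_sub, hag i hi, sub_self]
  obtain ⟨r, hr⟩ : ∃ r, r = y * x⁻¹ := ⟨_, rfl⟩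
  have hr1 : V 1 (r - 1) := by
    have e : r - 1 = (y - x) * x⁻¹ := by
      rw [hr, sub_mul, mul_inv_cancel₀ hx0]
    rw [e]
    have h2 := V_order (x⁻¹)
    have h3 : (x⁻¹).order = - x.order := by
      have h4 := order_zpow' hx0 (-1)
      rw [zpow_neg_one] at h4
      rw [h4]
      ring
    rw [h3] at h2
    have h5 := V_mul hV h2
    refine h5.mono ?_
    omega
  have hrm : σ r ^ (p - 1) = r ^ (m * (p - 1)) := by
    rw [hr, map_mul, map_inv₀, mul_pow, inv_pow, hx, hy, mul_pow, inv_pow]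
  by_cases h1 : r = 1
  · rw [h1] at hr
    have : y = x := by
      have h2 : y * x⁻¹ * x = y := inv_mul_cancel_right₀ hx0 y
      rw [← hr, one_mul] at h2
      exact h2.symm
    exact this
  exfalso
  have hr0 : r - 1 ≠ 0 := sub_ne_zero.2 h1
  obtain ⟨j, hj⟩ : ∃ j, j = (r - 1).order := ⟨_, rfl⟩
  have hj1 : 1 ≤ j := by
    by_contra h
    exact coeff_order_ne hr0 (hr1 _ (by omega))
  have hVj : V j (r - 1) := hj ▸ V_order _
  have h2 := pow_est hr1 (by rw [sub_self]; exact V_zero 1 : V 1 ((1 : LaurentSeries (ZMod p)) - 1))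
    hVj (m * (p - 1))
  rw [one_pow] at h2
  have h3 : V (j + 1) (σ r ^ (p - 1) - 1) := by
    have h4 := V_map σ m (by omega) ho hVj
    rw [map_sub, map_one] at h4
    have h5 : (2 : ℤ) ≤ m := by exact_mod_cast hm
    have h6 := V_one_pow (by nlinarith : (1 : ℤ) ≤ j * m) h4 (p - 1)
    exact h6.mono (by nlinarith)
  rw [hrm] at h3
  have h7 := V_sub h3 h2
  have h8 : r ^ (m * (p - 1)) - 1 - (r ^ (m * (p - 1)) - 1 -
      ((m * (p - 1) : ℕ) : LaurentSeries (ZMod p)) * (r - 1)) =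
      ((m * (p - 1) : ℕ) : LaurentSeries (ZMod p)) * (r - 1) := by ring
  rw [h8] at h7
  have hN : ((m * (p - 1) : ℕ) : ZMod p) ≠ 0 := by
    rw [Ne, ZMod.natCast_eq_zero_iff]
    intro h
    rcases hp.out.dvd_mul.1 h with h | h
    · exact hpm h
    · have := Nat.le_of_dvd (Nat.sub_pos_of_lt hp.out.one_lt) h
      have := hp.out.one_lt
      omega
  have hVC : V 0 (HahnSeries.C ((m * (p - 1) : ℕ) : ZMod p)⁻¹ : LaurentSeries (ZMod p)) := by
    intro i hi
    rw [HahnSeries.C_apply, HahnSeries.coeff_single_of_ne hi.ne]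
  have h9 := V_mul hVC h7
  have e : (HahnSeries.C ((m * (p - 1) : ℕ) : ZMod p)⁻¹ : LaurentSeries (ZMod p)) *
      (((m * (p - 1) : ℕ) : LaurentSeries (ZMod p)) * (r - 1)) = r - 1 := by
    have e1 : ((m * (p - 1) : ℕ) : LaurentSeries (ZMod p)) =
        HahnSeries.C ((m * (p - 1) : ℕ) : ZMod p) := by rw [map_natCast]
    rw [e1, ← mul_assoc, ← map_mul, inv_mul_cancel₀ hN, map_one, one_mul]
  rw [e, zero_add] at h9
  exact coeff_order_ne hr0 (h9 _ (by omega))

end Pool.Agent.Run7.h755.EN
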