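import Pool.Agent.Run7.h755.MG.Val

/-! # Fixed points in `F_p((t))` (helper755, for MP_db9079_lc) -/

set_option autoImplicit false

namespace Pool.Agent.Run7.h755.EN

open Function
open Pool.Agent.Run7.h755.MG

variable {p : ℕ} [hp : Fact p.Prime]

theorem eq_of_V {x y : LaurentSeries (ZMod p)} (h : ∀ n : ℕ, V (n : ℤ) (x - y)) : x = y := by
  ext i
  have h1 := h (i.toNat + 1) i (by have := Int.self_le_toNat i; push_cast; omega)
  rwa [HahnSeries.coeff_sub, sub_eq_zero] at h1

theorem exists_coeff (f : ℕ → ZMod p) : ∃ w : LaurentSeries (ZMod p),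
    (∀ n : ℕ, w.coeff (n : ℤ) = f n) ∧ V 0 w := by
  refine ⟨HahnSeries.ofPowerSeries ℤ (ZMod p) (PowerSeries.mk f), fun n => ?_, fun i hi => ?_⟩
  · rw [HahnSeries.ofPowerSeries_apply_coeff, PowerSeries.coeff_mk]
  · rw [HahnSeries.ofPowerSeries_apply]
    refine HahnSeries.embDomain_of_notMem_range ?_
    rintro ⟨n, hn⟩
    simp at hn
    omega

/-- a contraction of the one-units has a fixed point -/
theorem fixed (G : LaurentSeries (ZMod p) → LaurentSeries (ZMod p))
    (h1 : ∀ w, V 1 (w - 1) → V 1 (G w - 1))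
    (h2 : ∀ w w' : LaurentSeries (ZMod p), V 1 (w - 1) → V 1 (w' - 1) → ∀ k : ℤ, 1 ≤ k →
      V k (w - w') → V (k + 1) (G w - G w')) :
    ∃ w, V 1 (w - 1) ∧ G w = w := by
  obtain ⟨s, hs⟩ : ∃ s : ℕ → LaurentSeries (ZMod p), s = fun n => G^[n] 1 := ⟨_, rfl⟩
  have s0 : s 0 = 1 := by rw [hs]; rfl
  have s1 : ∀ n, s (n + 1) = G (s n) := fun n => by
    rw [hs]
    exact iterate_succ_apply' G n 1
  have a1 : ∀ n, V 1 (s n - 1) := by
    intro n
    induction n with
    | zero => rw [s0, sub_self]; exact V_zero _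
    | succ n ih => rw [s1]; exact h1 _ ih
  have a2 : ∀ n : ℕ, V ((n : ℤ) + 1) (s (n + 1) - s n) := by
    intro n
    induction n with
    | zero =>
      rw [s0]
      exact (a1 1).mono (by norm_num)
    | succ n ih =>
      rw [s1 (n + 1), s1 n]
      have h3 := h2 _ _ (a1 (n + 1)) (a1 n) ((n : ℤ) + 1) (by omega) ih
      have h4 : s (n + 1) = G (s n) := s1 n
      rw [← h4] at h3 ⊢
      push_cast
      exact h3
  have a3 : ∀ n d : ℕ, V ((n : ℤ) + 1) (s (n + d) - s n) := by
    intro n d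
    induction d with
    | zero => rw [add_zero, sub_self]; exact V_zero _
    | succ d ih =>
      have e : s (n + (d + 1)) - s n = (s (n + d + 1) - s (n + d)) + (s (n + d) - s n) := by
        rw [← add_assoc]
        ring
      rw [e]
      refine V_add ((a2 (n + d)).mono ?_) ih
      push_cast
      omega
  obtain ⟨w, hw, hw0⟩ := exists_coeff (p := p) fun n => (s n).coeff (n : ℤ)
  have a4 : ∀ n : ℕ, V ((n : ℤ) + 1) (w - s n) := by
    intro n i hi
    rw [HahnSeries.coeff_sub, sub_eq_zero]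
    by_cases h0 : i < 0
    · rw [hw0 i h0, V_of_one (a1 n) i h0]
    · obtain ⟨j, rfl⟩ := Int.eq_ofNat_of_zero_le (not_lt.1 h0)
      rw [hw j]
      obtain ⟨d, rfl⟩ : ∃ d, n = j + d := ⟨n - j, by omega⟩
      have h5 := a3 j d (j : ℤ) (by omega)
      rw [HahnSeries.coeff_sub, sub_eq_zero] at h5
      exact h5.symm
  have hw1 : V 1 (w - 1) := by
    have h3 := a4 0
    rw [s0] at h3
    exact h3.mono (by norm_num)
  refine ⟨w, hw1, eq_of_V fun n => ?_⟩
  have h3 := h2 _ _ hw1 (a1 n) ((n : ℤ) + 1) (by omega) (a4 n)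
  rw [← s1] at h3
  have h4 := a4 (n + 1)
  have e : G w - w = (G w - s (n + 1)) - (w - s (n + 1)) := by ring
  rw [e]
  refine V_sub (h3.mono (by omega)) (h4.mono ?_)
  push_cast
  omega

theorem pow_est {w w' : LaurentSeries (ZMod p)} (h : V 1 (w - 1)) (h' : V 1 (w' - 1)) {k : ℤ}
    (hk : V k (w - w')) (m : ℕ) : V (k + 1) (w ^ m - w' ^ m - (m : LaurentSeries (ZMod p)) * (w - w')) := by
  induction m with
  | zero =>
    rw [pow_zero, pow_zero, sub_self, Nat.cast_zero, zero_mul, sub_self]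
    exact V_zero _
  | succ m ih =>
    have e : w ^ (m + 1) - w' ^ (m + 1) - ((m + 1 : ℕ) : LaurentSeries (ZMod p)) * (w - w') =
        w * (w ^ m - w' ^ m - (m : LaurentSeries (ZMod p)) * (w - w')) + (m : LaurentSeries (ZMod p)) * ((w - w') * (w - 1)) +
          (w - w') * (w' ^ m - 1) := by
      push_cast
      ring
    rw [e]
    refine V_add (V_add ?_ ?_) ?_
    · have h1 := V_mul (V_of_one h) ih
      rwa [zero_add] at h1
    · have h1 := V_mul hk h
      have h2 : ∀ j : ℕ, V (k + 1) ((j : LaurentSeries (ZMod p)) * ((w - w') * (w - 1))) := by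
        intro j
        induction j with
        | zero => rw [Nat.cast_zero, zero_mul]; exact V_zero _
        | succ j ih => rw [Nat.cast_succ, add_mul, one_mul]; exact V_add ih h1
      exact h2 m
    · exact V_mul hk (V_one_pow le_rfl h' m)

/-- the solution of `w ^ m = H w` in one-units, for `m` prime to `p` and a contraction `H` -/
theorem solve (m : ℕ) (hm : ¬ p ∣ m) (H : LaurentSeries (ZMod p) → LaurentSeries (ZMod p))
    (h1 : ∀ w, V 1 (w - 1) → V 1 (H w - 1))
    (h2 : ∀ w w' : LaurentSeries (ZMod p), V 1 (w - 1) → V 1 (w' - 1) → ∀ k : ℤ, 1 ≤ k →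
      V k (w - w') → V (k + 1) (H w - H w')) :
    ∃ w, V 1 (w - 1) ∧ w ^ m = H w := by
  have hm0 : (m : ZMod p) ≠ 0 := by
    rwa [Ne, ZMod.natCast_eq_zero_iff]
  obtain ⟨c, hc, hc0⟩ : ∃ c : LaurentSeries (ZMod p), c * (m : LaurentSeries (ZMod p)) = 1 ∧ V 0 c := by
    refine ⟨HahnSeries.C ((m : ZMod p)⁻¹), ?_, ?_⟩
    · have e : (m : LaurentSeries (ZMod p)) = HahnSeries.C (m : ZMod p) := by
        rw [map_natCast]
      rw [e, ← map_mul, inv_mul_cancel₀ hm0, map_one]
    · intro i hi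
      rw [HahnSeries.C_apply, HahnSeries.coeff_single_of_ne hi.ne]
  have hc1 : c ≠ 0 := by
    rintro rfl
    rw [zero_mul] at hc
    exact zero_ne_one hc
  have g1 : ∀ w, V 1 (w - 1) → V 1 ((fun w => w - c * (w ^ m - H w)) w - 1) := by
    intro w hw
    have e : w - c * (w ^ m - H w) - 1 = (w - 1) - c * ((w ^ m - 1) - (H w - 1)) := by ring
    change V 1 (w - c * (w ^ m - H w) - 1)
    rw [e]
    refine V_sub hw ?_
    have h3 := V_mul hc0 (V_sub (V_one_pow le_rfl hw m) (h1 w hw))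
    rwa [zero_add] at h3
  have g2 : ∀ w w' : LaurentSeries (ZMod p), V 1 (w - 1) → V 1 (w' - 1) → ∀ k : ℤ, 1 ≤ k →
      V k (w - w') → V (k + 1) ((fun w => w - c * (w ^ m - H w)) w -
        (fun w => w - c * (w ^ m - H w)) w') := by
    intro w w' hw hw' k hk hkk
    have e : w - c * (w ^ m - H w) - (w' - c * (w' ^ m - H w')) =
        c * ((H w - H w') - (w ^ m - w' ^ m - (m : LaurentSeries (ZMod p)) * (w - w'))) := by
      linear_combination (-(w - w')) * hc
    change V (k + 1) (w - c * (w ^ m - H w) - (w' - c * (w' ^ m - H w')))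
    rw [e]
    have h3 := V_mul hc0 (V_sub (h2 w w' hw hw' k hk hkk) (pow_est hw hw' hkk m))
    rwa [zero_add] at h3
  obtain ⟨w, hw, hw'⟩ := fixed _ g1 g2
  refine ⟨w, hw, ?_⟩
  have h3 : c * (w ^ m - H w) = 0 := by
    have h4 : w - c * (w ^ m - H w) = w := hw'
    linear_combination -h4
  rcases mul_eq_zero.1 h3 with h4 | h4
  · exact absurd h4 hc1
  · exact sub_eq_zero.1 h4

end Pool.Agent.Run7.h755.EN
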